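import Mathlib

/-!
# Finite perfect centreless groups whose order is not polynomially bounded in the largest class

`Blk n` is the group of block upper triangular matrices over the field with five elements with
diagonal blocks `s, 1, t, 1` where `s, t` range over `SL(2, 5)` and the identity blocks have
size `n`. It is perfect with trivial centre, every element has a centraliser of order at
least `5 ^ (n ^ 2)`, and the order of the group is at most `5 ^ (n ^ 2 + 8 * n + 12)`.
-/

set_option autoImplicit false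

namespace Pool.Agent.Results.MP_606b74_al.NoPolyBound

open Matrix
open scoped commutatorElement

abbrev F : Type := ZMod 5

instance : Fact (Nat.Prime 5) := ⟨by norm_num⟩

/-- Block upper triangular matrices with rows `(s X Y W)`, `(0 1 V Z)`, `(0 0 t T)`, `(0 0 0 1)`. -/
@[ext]
structure Blk (n : ℕ) where
  s : SpecialLinearGroup (Fin 2) F
  t : SpecialLinearGroup (Fin 2) F
  X : Matrix (Fin 2) (Fin n) F
  Y : Matrix (Fin 2) (Fin 2) F
  W : Matrix (Fin 2) (Fin n) F
  V : Matrix (Fin n) (Fin 2) F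
  Z : Matrix (Fin n) (Fin n) F
  T : Matrix (Fin 2) (Fin n) F

variable {n : ℕ}

namespace Blk

instance : Mul (Blk n) where
  mul a b :=
    { s := a.s * b.s
      t := a.t * b.t
      X := a.s.1 * b.X + a.X
      Y := a.s.1 * b.Y + a.X * b.V + a.Y * b.t.1
      W := a.s.1 * b.W + a.X * b.Z + a.Y * b.T + a.W
      V := b.V + a.V * b.t.1
      Z := b.Z + a.V * b.T + a.Z
      T := a.t.1 * b.T + a.T }

instance : One (Blk n) where
  one := { s := 1, t := 1, X := 0, Y := 0, W := 0, V := 0, Z := 0, T := 0 }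

instance : Inv (Blk n) where
  inv a :=
    { s := a.s⁻¹
      t := a.t⁻¹
      X := -(a.s⁻¹.1 * a.X)
      Y := -(a.s⁻¹.1 * (a.Y - a.X * a.V) * a.t⁻¹.1)
      W := -(a.s⁻¹.1 * a.W) + a.s⁻¹.1 * (a.X * a.Z) +
        a.s⁻¹.1 * (a.Y - a.X * a.V) * a.t⁻¹.1 * a.T
      V := -(a.V * a.t⁻¹.1)
      Z := -a.Z + a.V * a.t⁻¹.1 * a.T
      T := -(a.t⁻¹.1 * a.T) }

@[simp] theorem mul_s (a b : Blk n) : (a * b).s = a.s * b.s := rfl
@[simp] theorem mul_t (a b : Blk n) : (a * b).t = a.t * b.t := rfl
@[simp] theorem mul_X (a b : Blk n) : (a * b).X = a.s.1 * b.X + a.X := rfl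
@[simp] theorem mul_Y (a b : Blk n) : (a * b).Y = a.s.1 * b.Y + a.X * b.V + a.Y * b.t.1 := rfl
@[simp] theorem mul_W (a b : Blk n) :
    (a * b).W = a.s.1 * b.W + a.X * b.Z + a.Y * b.T + a.W := rfl
@[simp] theorem mul_V (a b : Blk n) : (a * b).V = b.V + a.V * b.t.1 := rfl
@[simp] theorem mul_Z (a b : Blk n) : (a * b).Z = b.Z + a.V * b.T + a.Z := rfl
@[simp] theorem mul_T (a b : Blk n) : (a * b).T = a.t.1 * b.T + a.T := rfl
@[simp] theorem one_s : (1 : Blk n).s = 1 := rfl
@[simp] theorem one_t : (1 : Blk n).t = 1 := rfl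
@[simp] theorem one_X : (1 : Blk n).X = 0 := rfl
@[simp] theorem one_Y : (1 : Blk n).Y = 0 := rfl
@[simp] theorem one_W : (1 : Blk n).W = 0 := rfl
@[simp] theorem one_V : (1 : Blk n).V = 0 := rfl
@[simp] theorem one_Z : (1 : Blk n).Z = 0 := rfl
@[simp] theorem one_T : (1 : Blk n).T = 0 := rfl
@[simp] theorem inv_s (a : Blk n) : (a⁻¹).s = a.s⁻¹ := rfl
@[simp] theorem inv_t (a : Blk n) : (a⁻¹).t = a.t⁻¹ := rfl
theorem inv_X (a : Blk n) : (a⁻¹).X = -(a.s⁻¹.1 * a.X) := rfl
theorem inv_Y (a : Blk n) : (a⁻¹).Y = -(a.s⁻¹.1 * (a.Y - a.X * a.V) * a.t⁻¹.1) := rfl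
theorem inv_W (a : Blk n) : (a⁻¹).W = -(a.s⁻¹.1 * a.W) + a.s⁻¹.1 * (a.X * a.Z) +
        a.s⁻¹.1 * (a.Y - a.X * a.V) * a.t⁻¹.1 * a.T := rfl
theorem inv_V (a : Blk n) : (a⁻¹).V = -(a.V * a.t⁻¹.1) := rfl
theorem inv_Z (a : Blk n) : (a⁻¹).Z = -a.Z + a.V * a.t⁻¹.1 * a.T := rfl
theorem inv_T (a : Blk n) : (a⁻¹).T = -(a.t⁻¹.1 * a.T) := rfl

theorem sl_mul (s t : SpecialLinearGroup (Fin 2) F) : (s * t).1 = s.1 * t.1 := rfl

theorem sl_inv_mul (s : SpecialLinearGroup (Fin 2) F) : s⁻¹.1 * s.1 = 1 := by
  have h : s⁻¹ * s = 1 := inv_mul_cancel s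
  have h2 := congrArg Subtype.val h
  exact h2

instance : Group (Blk n) :=
  Group.ofLeftAxioms
    (by
      intro a b c
      apply Blk.ext
      · simp [mul_assoc]
      · simp [mul_assoc]
      · simp only [mul_X, mul_s, sl_mul, Matrix.mul_add, Matrix.mul_assoc]
        abel
      · simp only [mul_X, mul_s, mul_t, mul_Y, mul_V, sl_mul, Matrix.mul_add,
          Matrix.add_mul, Matrix.mul_assoc]
        abel
      · simp only [mul_X, mul_s, mul_Y, mul_W, mul_Z, mul_T,
          sl_mul, Matrix.mul_add, Matrix.add_mul, Matrix.mul_assoc]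
        abel
      · simp only [mul_t, mul_V, sl_mul, Matrix.mul_add,
          Matrix.add_mul, Matrix.mul_assoc]
        abel
      · simp only [mul_t, mul_V, mul_Z, mul_T, sl_mul, Matrix.mul_add,
          Matrix.add_mul, Matrix.mul_assoc]
        abel
      · simp only [mul_t, mul_T, sl_mul, Matrix.mul_add, Matrix.mul_assoc]
        abel)
    (by
      intro a
      apply Blk.ext <;> simp)
    (by
      intro a
      apply Blk.ext
      · simp
      · simp
      · simp only [mul_X, inv_s, inv_X, one_X]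
        abel
      · simp only [mul_Y, inv_s, inv_X, inv_Y, one_Y]
        have h := sl_inv_mul a.t
        rw [Matrix.neg_mul, Matrix.neg_mul, Matrix.mul_assoc (_ * _) a.t⁻¹.1 a.t.1, h,
          Matrix.mul_one, Matrix.mul_sub, Matrix.mul_assoc]
        abel
      · simp only [mul_W, inv_s, inv_X, inv_Y, inv_W, one_W]
        rw [Matrix.neg_mul, Matrix.neg_mul, Matrix.mul_assoc _ a.X a.Z]
        abel
      · simp only [mul_V, inv_V, one_V]
        rw [Matrix.neg_mul, Matrix.mul_assoc, sl_inv_mul, Matrix.mul_one]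
        abel
      · simp only [mul_Z, inv_V, inv_Z, one_Z]
        rw [Matrix.neg_mul]
        abel
      · simp only [mul_T, inv_t, inv_T, one_T]
        abel)


theorem mem_commutator_of {G : Type*} [Group G] {g h c : G} (e : g * h = c * (h * g)) :
    c ∈ commutator G := by
  have : c = ⁅g, h⁆ := by
    rw [commutatorElement_def, ← mul_inv_eq_of_eq_mul e]
    group
  rw [this]
  exact Subgroup.commutator_mem_commutator (Subgroup.mem_top _) (Subgroup.mem_top _)

/-! ### `SL(2, 5)` is perfect -/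

/-- Upper elementary matrix. -/
def up (x : F) : SpecialLinearGroup (Fin 2) F := ⟨!![1, x; 0, 1], by simp [Matrix.det_fin_two]⟩

/-- Lower elementary matrix. -/
def lo (x : F) : SpecialLinearGroup (Fin 2) F := ⟨!![1, 0; x, 1], by simp [Matrix.det_fin_two]⟩

/-- A diagonal matrix. -/
def dg : SpecialLinearGroup (Fin 2) F := ⟨!![2, 0; 0, 3], by simp [Matrix.det_fin_two]; decide⟩

theorem up_mem (x : F) : up x ∈ commutator (SpecialLinearGroup (Fin 2) F) := by
  refine mem_commutator_of (g := dg) (h := up (2 * x)) ?_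
  apply Subtype.ext
  show dg.1 * (up (2 * x)).1 = (up x).1 * ((up (2 * x)).1 * dg.1)
  revert x
  simp only [dg, up]
  decide

theorem lo_mem (x : F) : lo x ∈ commutator (SpecialLinearGroup (Fin 2) F) := by
  refine mem_commutator_of (g := dg) (h := lo (2 * x)) ?_
  apply Subtype.ext
  show dg.1 * (lo (2 * x)).1 = (lo x).1 * ((lo (2 * x)).1 * dg.1)
  revert x
  simp only [dg, lo]
  decide

theorem sl_perfect (s : SpecialLinearGroup (Fin 2) F) :
    s ∈ commutator (SpecialLinearGroup (Fin 2) F) := by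
  have key : ∀ s : SpecialLinearGroup (Fin 2) F, s.1 1 0 ≠ 0 →
      s ∈ commutator (SpecialLinearGroup (Fin 2) F) := by
    intro s hs
    have hdet : s.1 0 0 * s.1 1 1 - s.1 0 1 * s.1 1 0 = 1 := by
      have := s.2
      rwa [Matrix.det_fin_two] at this
    have : s = up ((s.1 0 0 - 1) * (s.1 1 0)⁻¹) * lo (s.1 1 0) *
        up ((s.1 1 1 - 1) * (s.1 1 0)⁻¹) := by
      apply Subtype.ext
      show s.1 = (up ((s.1 0 0 - 1) * (s.1 1 0)⁻¹)).1 * (lo (s.1 1 0)).1 *
        (up ((s.1 1 1 - 1) * (s.1 1 0)⁻¹)).1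
      have e : s.1 0 1 = (s.1 0 0 * s.1 1 1 - 1) * (s.1 1 0)⁻¹ := by
        field_simp
        linear_combination -hdet
      ext i j
      fin_cases i <;> fin_cases j
      · simp [up, lo, Matrix.mul_apply, Fin.sum_univ_two]
        field_simp
        ring
      · simp [up, lo, Matrix.mul_apply, Fin.sum_univ_two]
        rw [e]
        field_simp
        ring
      · simp [up, lo, Matrix.mul_apply, Fin.sum_univ_two]
      · simp [up, lo, Matrix.mul_apply, Fin.sum_univ_two]
        field_simp
        ring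
    rw [this]
    exact mul_mem (mul_mem (up_mem _) (lo_mem _)) (up_mem _)
  by_cases hs : s.1 1 0 = 0
  · have h1 : (s * lo 1).1 1 0 ≠ 0 := by
      have hdet : s.1 0 0 * s.1 1 1 - s.1 0 1 * s.1 1 0 = 1 := by
        have := s.2
        rwa [Matrix.det_fin_two] at this
      have : (s * lo 1).1 1 0 = s.1 1 0 + s.1 1 1 := by
        show (s.1 * (lo 1).1) 1 0 = _
        simp [lo, Matrix.mul_apply, Fin.sum_univ_two]
      rw [this, hs, zero_add]
      intro h0
      rw [hs, h0] at hdet
      simp at hdet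
    have h2 := key _ h1
    have h3 : s = (s * lo 1) * (lo 1)⁻¹ := by group
    rw [h3]
    exact mul_mem h2 (inv_mem (lo_mem _))
  · exact key s hs

/-! ### Elementary elements -/

/-- The diagonal element with first block `s`. -/
def dS (s : SpecialLinearGroup (Fin 2) F) : Blk n :=
  { s := s, t := 1, X := 0, Y := 0, W := 0, V := 0, Z := 0, T := 0 }

/-- The diagonal element with third block `t`. -/
def dT (t : SpecialLinearGroup (Fin 2) F) : Blk n :=
  { s := 1, t := t, X := 0, Y := 0, W := 0, V := 0, Z := 0, T := 0 }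

def eX (X : Matrix (Fin 2) (Fin n) F) : Blk n :=
  { s := 1, t := 1, X := X, Y := 0, W := 0, V := 0, Z := 0, T := 0 }

def eY (Y : Matrix (Fin 2) (Fin 2) F) : Blk n :=
  { s := 1, t := 1, X := 0, Y := Y, W := 0, V := 0, Z := 0, T := 0 }

def eW (W : Matrix (Fin 2) (Fin n) F) : Blk n :=
  { s := 1, t := 1, X := 0, Y := 0, W := W, V := 0, Z := 0, T := 0 }

def eV (V : Matrix (Fin n) (Fin 2) F) : Blk n :=
  { s := 1, t := 1, X := 0, Y := 0, W := 0, V := V, Z := 0, T := 0 }

def eZ (Z : Matrix (Fin n) (Fin n) F) : Blk n :=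
  { s := 1, t := 1, X := 0, Y := 0, W := 0, V := 0, Z := Z, T := 0 }

def eT (T : Matrix (Fin 2) (Fin n) F) : Blk n :=
  { s := 1, t := 1, X := 0, Y := 0, W := 0, V := 0, Z := 0, T := T }

/-- Minus the identity. -/
def m1 : SpecialLinearGroup (Fin 2) F := ⟨-1, by simp [Matrix.det_fin_two]⟩

theorem five (x : F) : -(2 * x) = 2 * x + x := by
  revert x; decide

theorem five' (x : F) : 2 * x = -(2 * x) - x := by
  revert x; decide

theorem mfive {a b : ℕ} (M : Matrix (Fin a) (Fin b) F) :
    -((2 : F) • M) = (2 : F) • M + M := by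
  ext i j
  simpa using five (M i j)

theorem one_val : ((1 : SpecialLinearGroup (Fin 2) F)).1 = 1 := rfl

theorem m1_val : m1.1 = -1 := rfl

theorem eX_mem (X : Matrix (Fin 2) (Fin n) F) : eX X ∈ commutator (Blk n) := by
  refine mem_commutator_of (g := dS m1) (h := eX ((2 : F) • X)) ?_
  apply Blk.ext <;> simp [dS, eX, one_val, m1_val]
  exact mfive X

theorem eY_mem (Y : Matrix (Fin 2) (Fin 2) F) : eY Y ∈ commutator (Blk n) := by
  refine mem_commutator_of (g := dS m1) (h := eY ((2 : F) • Y)) ?_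
  apply Blk.ext <;> simp [dS, eY, one_val, m1_val]
  exact mfive Y

theorem eW_mem (W : Matrix (Fin 2) (Fin n) F) : eW W ∈ commutator (Blk n) := by
  refine mem_commutator_of (g := dS m1) (h := eW ((2 : F) • W)) ?_
  apply Blk.ext <;> simp [dS, eW, one_val, m1_val]
  exact mfive W

theorem eT_mem (T : Matrix (Fin 2) (Fin n) F) : eT T ∈ commutator (Blk n) := by
  refine mem_commutator_of (g := dT m1) (h := eT ((2 : F) • T)) ?_
  apply Blk.ext <;> simp [dT, eT, one_val, m1_val]
  exact mfive T

theorem eV_mem (V : Matrix (Fin n) (Fin 2) F) : eV V ∈ commutator (Blk n) := by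
  refine mem_commutator_of (g := dT m1) (h := eV ((2 : F) • V)) ?_
  apply Blk.ext <;> simp [dT, eV, one_val, m1_val]
  ext i j
  simpa [sub_eq_add_neg] using five' (V i j)

theorem eZ_mul_mem (V : Matrix (Fin n) (Fin 2) F) (T : Matrix (Fin 2) (Fin n) F) :
    eZ (V * T) ∈ commutator (Blk n) := by
  refine mem_commutator_of (g := eV V) (h := eT T) ?_
  apply Blk.ext <;> simp [eV, eT, eZ, one_val]

theorem eZ_add (Z Z' : Matrix (Fin n) (Fin n) F) : eZ (Z + Z') = eZ Z * eZ Z' := by
  apply Blk.ext <;> simp [eZ, one_val, add_comm]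

theorem eZ_mem (Z : Matrix (Fin n) (Fin n) F) : eZ Z ∈ commutator (Blk n) := by
  refine Matrix.induction_on' Z ?_ ?_ ?_
  · exact one_mem _
  · intro p q hp hq
    rw [eZ_add]
    exact mul_mem hp hq
  · intro i j x
    have h := eZ_mul_mem (Matrix.single i (0 : Fin 2) x) (Matrix.single (0 : Fin 2) j (1 : F))
    simpa using h

theorem dS_mem (s : SpecialLinearGroup (Fin 2) F) : (dS s : Blk n) ∈ commutator (Blk n) := by
  let f : SpecialLinearGroup (Fin 2) F →* Blk n :=
    { toFun := dS
      map_one' := rfl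
      map_mul' := fun a b => by apply Blk.ext <;> simp [dS] }
  have h : (commutator (SpecialLinearGroup (Fin 2) F)).map f ≤ commutator (Blk n) := by
    rw [commutator_def, Subgroup.map_commutator, commutator_def]
    exact Subgroup.commutator_mono le_top le_top
  exact h ⟨s, sl_perfect s, rfl⟩

theorem dT_mem (t : SpecialLinearGroup (Fin 2) F) : (dT t : Blk n) ∈ commutator (Blk n) := by
  let f : SpecialLinearGroup (Fin 2) F →* Blk n :=
    { toFun := dT
      map_one' := rfl
      map_mul' := fun a b => by apply Blk.ext <;> simp [dT] }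
  have h : (commutator (SpecialLinearGroup (Fin 2) F)).map f ≤ commutator (Blk n) := by
    rw [commutator_def, Subgroup.map_commutator, commutator_def]
    exact Subgroup.commutator_mono le_top le_top
  exact h ⟨t, sl_perfect t, rfl⟩

theorem sl_mul_inv (s : SpecialLinearGroup (Fin 2) F) : s.1 * s⁻¹.1 = 1 :=
  congrArg Subtype.val (mul_inv_cancel s)

theorem decomp (g : Blk n) :
    g = eW g.W * (eZ g.Z * (eT g.T * (eY (g.Y * g.t⁻¹.1) * (eV (g.V * g.t⁻¹.1) *
      (eX g.X * (dS g.s * dT g.t)))))) := by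
  apply Blk.ext
  · simp [eW, eZ, eT, eY, eV, eX, dS, dT]
  · simp [eW, eZ, eT, eY, eV, eX, dS, dT]
  · simp [eW, eZ, eT, eY, eV, eX, dS, dT, one_val]
  · simp only [eW, eZ, eT, eY, eV, eX, dS, dT, one_val, mul_Y, mul_X, mul_V, mul_t, mul_s, sl_mul,
      Matrix.mul_zero, Matrix.zero_mul, Matrix.one_mul, Matrix.mul_one, add_zero, zero_add, one_mul,
      mul_one]
    rw [Matrix.mul_assoc, sl_inv_mul, Matrix.mul_one]
  · simp [eW, eZ, eT, eY, eV, eX, dS, dT, one_val]
  · simp only [eW, eZ, eT, eY, eV, eX, dS, dT, one_val, mul_Y, mul_X, mul_V, mul_t, mul_s, sl_mul,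
      Matrix.mul_zero, Matrix.zero_mul, Matrix.one_mul, Matrix.mul_one, add_zero, zero_add, one_mul,
      mul_one]
    rw [Matrix.mul_assoc, sl_inv_mul, Matrix.mul_one]
  · simp [eW, eZ, eT, eY, eV, eX, dS, dT, one_val]
  · simp [eW, eZ, eT, eY, eV, eX, dS, dT, one_val]

theorem perfect (n : ℕ) : commutator (Blk n) = ⊤ := by
  rw [eq_top_iff]
  intro g _
  rw [decomp g]
  exact mul_mem (eW_mem _) (mul_mem (eZ_mem _) (mul_mem (eT_mem _) (mul_mem (eY_mem _)
    (mul_mem (eV_mem _) (mul_mem (eX_mem _) (mul_mem (dS_mem _) (dT_mem _)))))))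

/-! ### The centre is trivial -/

theorem eq_one_of_mul {M : Matrix (Fin 2) (Fin 2) F} {n : ℕ} (hn : 0 < n)
    (h : ∀ X : Matrix (Fin 2) (Fin n) F, M * X = X) : M = 1 := by
  ext i k
  have h1 := congrFun (congrFun (h (Matrix.of fun a _ => if a = k then 1 else 0)) i) ⟨0, hn⟩
  simpa [Matrix.mul_apply, Matrix.one_apply] using h1

theorem eq_zero_of_mul_left {a b c : ℕ} {M : Matrix (Fin a) (Fin b) F} (hc : 0 < c)
    (h : ∀ X : Matrix (Fin c) (Fin a) F, X * M = 0) : M = 0 := by
  ext i k
  have h1 := congrFun (congrFun (h (Matrix.of fun _ a => if a = i then 1 else 0)) ⟨0, hc⟩) k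
  simpa [Matrix.mul_apply] using h1

theorem eq_zero_of_mul_right {a b c : ℕ} {M : Matrix (Fin a) (Fin b) F} (hc : 0 < c)
    (h : ∀ X : Matrix (Fin b) (Fin c) F, M * X = 0) : M = 0 := by
  ext i k
  have h1 := congrFun (congrFun (h (Matrix.of fun a _ => if a = k then 1 else 0)) i) ⟨0, hc⟩
  simpa [Matrix.mul_apply] using h1

theorem centreless (hn : 0 < n) : Subgroup.center (Blk n) = ⊥ := by
  rw [Subgroup.eq_bot_iff_forall]
  intro g hg
  rw [Subgroup.mem_center_iff] at hg
  have hs : g.s = 1 := by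
    apply Subtype.ext
    refine eq_one_of_mul hn fun X => ?_
    have := congrArg Blk.X (hg (eX X))
    simp only [mul_X, eX, one_val, Matrix.one_mul] at this
    rw [add_comm] at this
    exact (add_right_cancel this).symm
  have hV : g.V = 0 := by
    refine eq_zero_of_mul_left (c := 2) (by norm_num) fun X => ?_
    have := congrArg Blk.Y (hg (eX X))
    simp only [mul_Y, eX, one_val, Matrix.one_mul, Matrix.zero_mul, Matrix.mul_zero, add_zero,
      zero_add, Matrix.mul_one] at this
    simpa using this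
  have hZ : g.Z = 0 := by
    refine eq_zero_of_mul_left (c := 2) (by norm_num) fun X => ?_
    have := congrArg Blk.W (hg (eX X))
    simp only [mul_W, eX, one_val, Matrix.one_mul, Matrix.zero_mul, Matrix.mul_zero, add_zero,
      zero_add] at this
    simpa using this
  have hX : g.X = 0 := by
    refine eq_zero_of_mul_right (c := n) hn fun Z => ?_
    have := congrArg Blk.W (hg (eZ Z))
    simp only [mul_W, eZ, one_val, Matrix.one_mul, Matrix.zero_mul, Matrix.mul_zero, add_zero,
      zero_add] at this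
    simpa using this.symm
  have ht : g.t = 1 := by
    apply Subtype.ext
    refine eq_one_of_mul hn fun T => ?_
    have := congrArg Blk.T (hg (eT T))
    simp only [mul_T, eT, one_val, Matrix.one_mul] at this
    rw [add_comm] at this
    exact (add_right_cancel this).symm
  have hY : g.Y = 0 := by
    refine eq_zero_of_mul_right (c := n) hn fun T => ?_
    have := congrArg Blk.W (hg (eT T))
    simp only [mul_W, eT, one_val, Matrix.one_mul, Matrix.zero_mul, Matrix.mul_zero, add_zero,
      zero_add] at this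
    simpa using this.symm
  have hT : g.T = 0 := by
    refine eq_zero_of_mul_left (c := n) hn fun V => ?_
    have := congrArg Blk.Z (hg (eV V))
    simp only [mul_Z, eV, Matrix.mul_zero, add_zero, zero_add] at this
    simpa using this
  have hW : g.W = 0 := by
    have := congrArg Blk.W (hg (dS m1))
    simp only [mul_W, dS, m1_val, Matrix.zero_mul, Matrix.mul_zero, add_zero,
      zero_add, Matrix.neg_mul, Matrix.one_mul] at this
    ext i j
    have h2 := congrFun (congrFun this i) j
    simp only [Matrix.neg_apply] at h2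
    simp only [Matrix.zero_apply]
    revert h2
    generalize g.W i j = x
    revert x
    decide
  apply Blk.ext <;> assumption

/-! ### Large centralisers -/

/-- The matrices `e` with `W`-block `p.1` and `Z`-block `p.2`. -/
def eWZ (p : Matrix (Fin 2) (Fin n) F × Matrix (Fin n) (Fin n) F) : Blk n :=
  { s := 1, t := 1, X := 0, Y := 0, W := p.1, V := 0, Z := p.2, T := 0 }

/-- The linear map describing the commutators with `x`. -/
def phi (x : Blk n) :
    Matrix (Fin 2) (Fin n) F × Matrix (Fin n) (Fin n) F →+ Matrix (Fin 2) (Fin n) F where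
  toFun p := x.s.1 * p.1 + x.X * p.2 - p.1
  map_zero' := by simp
  map_add' p q := by
    simp only [Prod.fst_add, Prod.snd_add, Matrix.mul_add]
    abel

theorem eWZ_mem (x : Blk n) (p : Matrix (Fin 2) (Fin n) F × Matrix (Fin n) (Fin n) F)
    (hp : p ∈ (phi x).ker) : eWZ p ∈ Subgroup.centralizer {x} := by
  rw [Subgroup.mem_centralizer_singleton_iff]
  have hp' : x.s.1 * p.1 + x.X * p.2 = p.1 := by
    have : x.s.1 * p.1 + x.X * p.2 - p.1 = 0 := hp
    exact sub_eq_zero.mp this
  apply Blk.ext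
  · simp [eWZ]
  · simp [eWZ]
  · simp [eWZ, one_val]
  · simp [eWZ, one_val]
  · simp only [eWZ, mul_W, one_val, Matrix.one_mul, Matrix.zero_mul, Matrix.mul_zero, add_zero]
    rw [hp', add_comm]
  · simp [eWZ, one_val]
  · simp [eWZ, one_val, add_comm]
  · simp [eWZ, one_val]

theorem eWZ_injective : Function.Injective (eWZ : _ → Blk n) := by
  intro p q h
  have h1 := congrArg Blk.W h
  have h2 := congrArg Blk.Z h
  exact Prod.ext h1 h2

/-- All components of an element. -/
def comps (g : Blk n) :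
    Matrix (Fin 2) (Fin 2) F × Matrix (Fin 2) (Fin 2) F × Matrix (Fin 2) (Fin n) F ×
      Matrix (Fin 2) (Fin 2) F × Matrix (Fin 2) (Fin n) F × Matrix (Fin n) (Fin 2) F ×
      Matrix (Fin n) (Fin n) F × Matrix (Fin 2) (Fin n) F :=
  (g.s.1, g.t.1, g.X, g.Y, g.W, g.V, g.Z, g.T)

theorem comps_injective : Function.Injective (comps : Blk n → _) := by
  intro a b h
  simp only [comps, Prod.mk.injEq] at h
  obtain ⟨h1, h2, h3, h4, h5, h6, h7, h8⟩ := h
  exact Blk.ext (Subtype.ext h1) (Subtype.ext h2) h3 h4 h5 h6 h7 h8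

instance : Finite (Blk n) := Finite.of_injective _ comps_injective

theorem card_mat (a b : ℕ) : Nat.card (Matrix (Fin a) (Fin b) F) = 5 ^ (a * b) := by
  have h : Nat.card (Fin a → Fin b → ZMod 5) = 5 ^ (a * b) := by
    rw [Nat.card_fun, Nat.card_fun, Nat.card_zmod, Nat.card_fin, Nat.card_fin, ← pow_mul, mul_comm]
  exact h

theorem card_le (n : ℕ) : Nat.card (Blk n) ≤ 5 ^ (n * n + 8 * n + 12) := by
  refine (Nat.card_le_card_of_injective _ comps_injective).trans ?_
  simp only [Nat.card_prod, card_mat, ← pow_add]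
  exact Nat.pow_le_pow_right (by norm_num) (by ring_nf; exact le_rfl)

theorem card_ge (n : ℕ) : 5 ^ (n * n) ≤ Nat.card (Blk n) := by
  rw [← card_mat]
  exact Nat.card_le_card_of_injective (eZ : _ → Blk n) fun a b h => congrArg Blk.Z h

theorem card_centralizer_ge (x : Blk n) :
    5 ^ (n * n) ≤ Nat.card (Subgroup.centralizer {x}) := by
  have h1 : Nat.card (phi x).ker ≤ Nat.card (Subgroup.centralizer {x}) := by
    refine Nat.card_le_card_of_injective
      (fun p : (phi x).ker => (⟨eWZ p.1, eWZ_mem x p.1 p.2⟩ : Subgroup.centralizer {x})) ?_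
    intro p q h
    exact Subtype.ext (eWZ_injective (congrArg Subtype.val h))
  refine le_trans ?_ h1
  have h2 := (phi x).ker.card_mul_index
  rw [AddSubgroup.index_ker, Nat.card_prod, card_mat, card_mat] at h2
  have h3 : Nat.card (phi x).range ≤ 5 ^ (2 * n) := by
    rw [← card_mat]
    exact Nat.card_le_card_of_injective _ Subtype.val_injective
  have h4 : 5 ^ (2 * n) * 5 ^ (n * n) ≤ 5 ^ (2 * n) * Nat.card (phi x).ker := by
    rw [← h2, mul_comm]
    exact Nat.mul_le_mul_right _ h3
  exact Nat.le_of_mul_le_mul_left h4 (by positivity)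

theorem class_le (x : Blk n) : (conjugatesOf x).ncard ≤ 5 ^ (8 * n + 12) := by
  have h1 := (MulAction.stabilizer (ConjAct (Blk n)) x).card_mul_index
  rw [MulAction.index_stabilizer] at h1
  have h2 : MulAction.orbit (ConjAct (Blk n)) x = conjugatesOf x := by
    ext y
    rw [ConjAct.mem_orbit_conjAct]
    exact isConj_comm
  rw [h2] at h1
  have h3 : Nat.card (MulAction.stabilizer (ConjAct (Blk n)) x) =
      Nat.card (Subgroup.centralizer {x}) := (Subgroup.nat_card_centralizer_nat_card_stabilizer x).symm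
  have h4 : Nat.card (ConjAct (Blk n)) = Nat.card (Blk n) := rfl
  rw [h3, h4] at h1
  have h5 := card_centralizer_ge x
  have h6 := card_le n
  have h7 : 5 ^ (n * n) * (conjugatesOf x).ncard ≤ 5 ^ (n * n) * 5 ^ (8 * n + 12) := by
    calc 5 ^ (n * n) * (conjugatesOf x).ncard
        ≤ Nat.card (Subgroup.centralizer {x}) * (conjugatesOf x).ncard :=
          Nat.mul_le_mul_right _ h5
      _ = Nat.card (Blk n) := h1
      _ ≤ 5 ^ (n * n + 8 * n + 12) := h6
      _ = 5 ^ (n * n) * 5 ^ (8 * n + 12) := by rw [← pow_add]; ring_nf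
  exact Nat.le_of_mul_le_mul_left h7 (by positivity)

end Blk

/-- For every exponent `c` there is a finite perfect group `G` with trivial centre such that
`|x ^ G| ^ c < |G|` for every element `x` of `G`. The case `c = 2` answers the question. -/
theorem result (c : ℕ) :
    ∃ (G : Type) (_ : Group G) (_ : Finite G),
      commutator G = ⊤ ∧ Subgroup.center G = ⊥ ∧
        ∀ x : G, (conjugatesOf x).ncard ^ c < Nat.card G := by
  refine ⟨Blk (20 * c + 1), inferInstance, inferInstance, Blk.perfect _,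
    Blk.centreless (by omega), fun x => ?_⟩
  refine lt_of_lt_of_le ?_ (Blk.card_ge _)
  refine lt_of_le_of_lt (Nat.pow_le_pow_left (Blk.class_le x) c) ?_
  rw [← pow_mul]
  refine Nat.pow_lt_pow_right (by norm_num) ?_
  nlinarith

end Pool.Agent.Results.MP_606b74_al.NoPolyBound
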